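import Pool.Agent.U167.SA.Stm

/-!
Project SA, package UNI: an arc around a box in the half-plane.
-/

set_option autoImplicit false
set_option maxHeartbeats 400000

namespace Pool.Agent.U692.SA

open H974 Finset Filter Topology Pool.Agent.U167.SA

/-- Follow a path until the first vertex with column `b`. -/
theorem stop_col {G : Set Edg} {b : ℤ} {p r : Vtx} (h : Reach G p r) (hp : b ≤ col p)
    (hr : col r ≤ b) :
    ∃ w, col w = b ∧ Reach (G ∩ {e | b ≤ col (src e) ∧ b ≤ col (tgt e)}) p w := by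
  have key : ∀ w, Reach G p w →
      (∃ w, col w = b ∧ Reach (G ∩ {e | b ≤ col (src e) ∧ b ≤ col (tgt e)}) p w) ∨
      (b < col w ∧ Reach (G ∩ {e | b ≤ col (src e) ∧ b ≤ col (tgt e)}) p w) := by
    intro w hw
    induction hw with
    | refl =>
      rcases hp.lt_or_eq with h | h
      · exact Or.inr ⟨h, Reach.refl _ _⟩
      · exact Or.inl ⟨p, h.symm, Reach.refl _ _⟩
    | @tail w w' _ hs ih =>
      rcases ih with ih | ⟨ih1, ih2⟩
      · exact Or.inl ih
      · obtain ⟨⟨x, y, bo⟩, he, hc⟩ := hs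
        have hcol : b ≤ col w' := by
          unfold col at ih1 ⊢
          cases bo
          · simp only [src_mk, tgt_false] at hc
            rcases hc with ⟨h1, h2⟩ | ⟨h1, h2⟩
            · rw [← h1] at ih1; rw [← h2]; simp only at ih1 ⊢; omega
            · rw [← h2] at ih1; rw [← h1]; simp only at ih1 ⊢; omega
          · simp only [src_mk, tgt_true] at hc
            rcases hc with ⟨h1, h2⟩ | ⟨h1, h2⟩
            · rw [← h1] at ih1; rw [← h2]; simp only at ih1 ⊢; omega
            · rw [← h2] at ih1; rw [← h1]; simp only at ih1 ⊢; omega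
        have hadj : Adj (G ∩ {e | b ≤ col (src e) ∧ b ≤ col (tgt e)}) w w' := by
          refine ⟨(x, y, bo), ⟨he, ?_⟩, hc⟩
          rcases hc with ⟨h1, h2⟩ | ⟨h1, h2⟩
          · exact ⟨by rw [h1]; exact ih1.le, by rw [h2]; exact hcol⟩
          · exact ⟨by rw [h1]; exact hcol, by rw [h2]; exact ih1.le⟩
        have hr' := ih2.trans hadj.reach
        rcases hcol.lt_or_eq with h | h
        · exact Or.inr ⟨h, hr'⟩
        · exact Or.inl ⟨w', h.symm, hr'⟩
  rcases key r h with h1 | ⟨h1, h2⟩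
  · exact h1
  · omega

/-- A path in the edges of a rectangle stays in the rectangle. -/
theorem stay {G : Set Edg} {a b c d : ℤ} {p q : Vtx} (h : Reach (G ∩ ↑(RE a b c d)) p q)
    (hp : inR a b c d p) : inR a b c d q := by
  induction h with
  | refl => exact hp
  | @tail w w' _ hs ih =>
    obtain ⟨⟨x, y, bo⟩, ⟨-, he⟩, hc⟩ := hs
    unfold inR
    cases bo
    · simp only [mem_coe, mem_RE_false] at he
      simp only [src_mk, tgt_false] at hc
      rcases hc with ⟨h1, h2⟩ | ⟨h1, h2⟩
      · rw [← h2]; simp only; omega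
      · rw [← h1]; simp only; omega
    · simp only [mem_coe, mem_RE_true] at he
      simp only [src_mk, tgt_true] at hc
      rcases hc with ⟨h1, h2⟩ | ⟨h1, h2⟩
      · rw [← h2]; simp only; omega
      · rw [← h1]; simp only; omega

/-- Edges of `S` hanging at `w0` in vertices not touched by `J` do not help. -/
theorem lift {J S : Set Edg} {I : Set Vtx} {w0 : Vtx}
    (hJ : ∀ e ∈ J, src e ∉ I ∧ tgt e ∉ I)
    (hS : ∀ e ∈ S, (src e ∈ I ∨ src e = w0) ∧ (tgt e ∈ I ∨ tgt e = w0))
    {p q : Vtx} (h : Reach (J ∪ S) p q) (hp : p ∉ I) (hq : q ∉ I) : Reach J p q := by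
  have key : ∀ q, Reach (J ∪ S) p q → (q ∉ I → Reach J p q) ∧ (q ∈ I → Reach J p w0) := by
    intro q hq
    induction hq with
    | refl => exact ⟨fun _ => Reach.refl _ _, fun h => absurd h hp⟩
    | @tail w w' _ hs ih =>
      obtain ⟨e, he, hc⟩ := hs
      rcases he with he | he
      · obtain ⟨h1, h2⟩ := hJ e he
        rcases hc with ⟨h3, h4⟩ | ⟨h3, h4⟩
        · rw [h3] at h1; rw [h4] at h2
          exact ⟨fun _ => (ih.1 h1).trans (Adj.reach ⟨e, he, Or.inl ⟨h3, h4⟩⟩), fun h => absurd h h2⟩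
        · rw [h3] at h1; rw [h4] at h2
          exact ⟨fun _ => (ih.1 h2).trans (Adj.reach ⟨e, he, Or.inr ⟨h3, h4⟩⟩), fun h => absurd h h1⟩
      · have hw0 : Reach J p w0 := by
          have hw : w ∈ I ∨ w = w0 := by
            obtain ⟨h1, h2⟩ := hS e he
            rcases hc with ⟨h3, h4⟩ | ⟨h3, h4⟩
            · rw [h3] at h1; exact h1
            · rw [h4] at h2; exact h2
          by_cases hwI : w ∈ I
          · exact ih.2 hwI
          · rcases hw with hw | hw
            · exact absurd hw hwI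
            · rw [← hw]; exact ih.1 hwI
        have hw' : w' ∈ I ∨ w' = w0 := by
          obtain ⟨h1, h2⟩ := hS e he
          rcases hc with ⟨h3, h4⟩ | ⟨h3, h4⟩
          · rw [h4] at h2; exact h2
          · rw [h3] at h1; exact h1
        refine ⟨fun h => ?_, fun _ => hw0⟩
        rcases hw' with hw | hw
        · exact absurd hw h
        · rw [hw]; exact hw0
  exact (key q h).1 hq

/-- A vertical segment. -/
theorem vseg {S : Set Edg} {x y0 : ℤ} (n : ℕ) (h : ∀ y, y0 ≤ y → y < y0 + n → (x, y, false) ∈ S) :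
    Reach S (x, y0) (x, y0 + n) := by
  induction n with
  | zero => simpa using Reach.refl S (x, y0)
  | succ n ih =>
    refine (ih (fun y h1 h2 => h y h1 (by push_cast; omega))).trans (Adj.reach ?_)
    refine ⟨(x, y0 + n, false), h _ (by omega) (by push_cast; omega), Or.inl ⟨rfl, ?_⟩⟩
    simp only [tgt_false]
    push_cast
    rw [add_assoc]

/-- A horizontal segment. -/
theorem hseg {S : Set Edg} {x0 y : ℤ} (n : ℕ) (h : ∀ x, x0 ≤ x → x < x0 + n → (x, y, true) ∈ S) :
    Reach S (x0, y) (x0 + n, y) := by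
  induction n with
  | zero => simpa using Reach.refl S (x0, y)
  | succ n ih =>
    refine (ih (fun y h1 h2 => h y h1 (by push_cast; omega))).trans (Adj.reach ?_)
    refine ⟨(x0 + n, y, true), h _ (by omega) (by push_cast; omega), Or.inl ⟨rfl, ?_⟩⟩
    simp only [tgt_true]
    push_cast
    rw [add_assoc]

/-- The last edge of a path. -/
theorem last_edge {J : Set Edg} {u w : Vtx} (h : Reach J u w) (hne : u ≠ w) :
    ∃ e ∈ J, src e = w ∨ tgt e = w := by
  rcases Relation.ReflTransGen.cases_tail h with h | ⟨v, -, ⟨e, he, hc⟩⟩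
  · exact absurd h.symm hne
  · rcases hc with ⟨-, h⟩ | ⟨h, -⟩
    · exact ⟨e, he, Or.inr h⟩
    · exact ⟨e, he, Or.inl h⟩

/-- The integer form. -/
theorem core {M a b : ℤ} (hM : 0 < M) (ha : 4 * |a| ≤ M) (hb : 4 * |b| ≤ M) {F J : Set Edg}
    (hJ2 : ∀ e ∈ J, e ∉ RE (-(M-1)) (M-1) (-(M-1)) (M-1) → e ∈ Dm a b)
    (hJ3 : ∀ e ∈ F, e ∈ RE (-(4*M)) (4*M) (-(4*M)) (4*M) →
      e ∉ RE (-(M-1)) (M-1) (-(M-1)) (M-1) → e ∈ Dm a b → e ∈ J)
    {x x' y q : ℤ} (hx : M ≤ x ∧ x ≤ 3*M) (hx' : M ≤ x' ∧ x' ≤ 3*M)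
    (hV : Reach (F ∩ ↑(TBE M (3*M) (-(3*M)) (4*M))) (x, -(3*M)) (x', 4*M))
    (hy : -(3*M) ≤ y ∧ y ≤ -M) (hq : -(3*M) ≤ q ∧ q ≤ -M)
    (hW : Reach (F ∩ ↑(LRE (-(4*M)) (3*M) (-(3*M)) (-M))) (-(4*M), y) (3*M, q))
    {u v : Vtx} (hu : inR (-(M-1)) (M-1) (-(M-1)) (M-1) u)
    (hv : v.1 = -(4*M) ∨ v.1 = 4*M ∨ v.2 = -(4*M) ∨ v.2 = 4*M) (huv : Reach J u v) :
    Reach J u (x, -(3*M)) := by
  have ha1 := neg_abs_le a
  have ha2 := le_abs_self a
  have hb1 := neg_abs_le b
  have hb2 := le_abs_self b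
  -- the vertical path
  obtain ⟨wV, hwV, hV1⟩ := stop_col (b := b) hV (by unfold col; simp only; omega)
    (by unfold col; simp only; omega)
  have hV2 : Reach (J ∩ ↑(RE M (3*M) (-(3*M)) (4*M))) (x, -(3*M)) wV := by
    refine hV1.mono ?_
    rintro ⟨x0, y0, bo⟩ ⟨⟨h1, h2⟩, h3⟩
    have h2' := h2
    refine ⟨hJ3 _ h1 ?_ ?_ ?_, TBE_subset_RE (mem_coe.mp h2)⟩
    · cases bo
      · simp only [mem_coe, mem_TBE_false, mem_RE_false] at h2 ⊢; omega
      · simp only [mem_coe, mem_TBE_true, mem_RE_true] at h2 ⊢; omega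
    · cases bo
      · simp only [mem_coe, mem_TBE_false, mem_RE_false] at h2 ⊢; omega
      · simp only [mem_coe, mem_TBE_true, mem_RE_true] at h2 ⊢; omega
    · unfold Dm DV ht
      simp only [Set.mem_ofPred_eq] at h3 ⊢
      unfold col at h3 ⊢
      cases bo
      · simp only [mem_coe, mem_TBE_false, src_mk, tgt_false] at h2 h3 ⊢; omega
      · simp only [mem_coe, mem_TBE_true, src_mk, tgt_true] at h2 h3 ⊢; omega
  have hwV1 : inR M (3*M) (-(3*M)) (4*M) wV := stay hV2 (by unfold inR; simp only; omega)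
  -- the horizontal path
  obtain ⟨wW, hwW, hW1⟩ := stop_col (b := a) hW.symm (by unfold col; simp only; omega)
    (by unfold col; simp only; omega)
  have hW2 : Reach (J ∩ ↑(RE (-(4*M)) (3*M) (-(3*M)) (-M))) (3*M, q) wW := by
    refine hW1.mono ?_
    rintro ⟨x0, y0, bo⟩ ⟨⟨h1, h2⟩, h3⟩
    refine ⟨hJ3 _ h1 ?_ ?_ ?_, LRE_subset_RE (mem_coe.mp h2)⟩
    · cases bo
      · simp only [mem_coe, mem_LRE_false, mem_RE_false] at h2 ⊢; omega
      · simp only [mem_coe, mem_LRE_true, mem_RE_true] at h2 ⊢; omega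
    · cases bo
      · simp only [mem_coe, mem_LRE_false, mem_RE_false] at h2 ⊢; omega
      · simp only [mem_coe, mem_LRE_true, mem_RE_true] at h2 ⊢; omega
    · unfold Dm DV ht
      simp only [Set.mem_ofPred_eq] at h3 ⊢
      unfold col at h3 ⊢
      cases bo
      · simp only [mem_coe, mem_LRE_false, src_mk, tgt_false] at h2 h3 ⊢; omega
      · simp only [mem_coe, mem_LRE_true, src_mk, tgt_true] at h2 h3 ⊢; omega
  have hwW1 : inR (-(4*M)) (3*M) (-(3*M)) (-M) wW := stay hW2 (by unfold inR; simp only; omega)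
  unfold col at hwV hwW
  unfold inR at hwV1 hwW1
  obtain ⟨vx, vy⟩ := wV
  obtain ⟨wx, wy⟩ := wW
  simp only at hwV hwW hwV1 hwW1
  -- the exit point
  obtain ⟨w, hw1, hw2, hw3⟩ := first_exit (a := -(4*M)) (b := 3*M) (c := -(3*M)) (d := 4*M)
    (by unfold inR at hu ⊢; omega) huv (by omega)
  have huw : Reach J u w := hw3.mono Set.inter_subset_left
  have hwD : DV a b w := by
    obtain ⟨e, he, hc⟩ := last_edge huw (by
      rintro rfl
      unfold inR at hu
      omega)
    have hout : e ∉ RE (-(M-1)) (M-1) (-(M-1)) (M-1) := by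
      obtain ⟨x0, y0, bo⟩ := e
      intro hmem
      cases bo
      · simp only [mem_RE_false] at hmem
        simp only [src_mk, tgt_false] at hc
        rcases hc with hc | hc <;> rw [← hc] at hw2 <;> simp only at hw2 <;> omega
      · simp only [mem_RE_true] at hmem
        simp only [src_mk, tgt_true] at hc
        rcases hc with hc | hc <;> rw [← hc] at hw2 <;> simp only at hw2 <;> omega
    have hD := hJ2 e he hout
    rcases hc with hc | hc
    · rw [← hc]; exact hD.1
    · rw [← hc]; exact hD.2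
  -- the two paths meet
  have hmeet : Reach J (3*M, q) (x, -(3*M)) := by
    have m := cross_meet (F := J) (A := -(4*M)) (B := 3*M) (C := -(3*M)) (D := 4*M)
      (a := M) (b := 3*M) (c := -(3*M)) (d := -M) (by omega) (by omega) le_rfl le_rfl (by omega)
      (by omega) hW2.symm (by simp only; omega) le_rfl hV2 le_rfl (by simp only; omega)
    exact (hW2.mono Set.inter_subset_left).trans (m.mono Set.inter_subset_left)
  have hcase : w.1 = 3*M ∨ w.2 = -(3*M) := by
    unfold DV ht col at hwD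
    unfold inR at hw1
    rcases hw2 with h | h | h | h
    · exfalso
      by_cases h0 : 0 ≤ w.1 + w.2
      · have := hwD.1 h0; omega
      · have := hwD.2 (by omega); omega
    · exact Or.inl h
    · exact Or.inr h
    · exfalso
      have := hwD.1 (by omega)
      omega
  rcases hcase with hcase | hcase
  · -- the vertical path extended
    set S : Set Edg := {e | e.1 = vx ∧ e.2.2 = false ∧ vy ≤ e.2.1 ∧ e.2.1 < 4*M} with hS
    set I : Set Vtx := {z | z.1 = vx ∧ vy < z.2} with hI
    have hseg1 : Reach (S ∩ ↑(RE M (3*M) (-(3*M)) (4*M))) (vx, vy) (vx, 4*M) := by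
      have := vseg (S := S ∩ ↑(RE M (3*M) (-(3*M)) (4*M))) (x := vx) (y0 := vy)
        (4*M - vy).toNat (by
          intro y1 h1 h2
          refine ⟨⟨rfl, rfl, h1, by show y1 < 4*M; omega⟩, ?_⟩
          simp only [mem_coe, mem_RE_false]; omega)
      rwa [show vy + ((4*M - vy).toNat : ℤ) = 4*M by omega] at this
    have hV3 : Reach ((J ∪ S) ∩ ↑(RE M (3*M) (-(3*M)) (4*M))) (x, -(3*M)) (vx, 4*M) :=
      (hV2.mono (Set.inter_subset_inter_left _ Set.subset_union_left)).trans
        (hseg1.mono (Set.inter_subset_inter_left _ Set.subset_union_right))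
    have m := cross_meet (F := J ∪ S) (A := -(4*M)) (B := 3*M) (C := -(3*M)) (D := 4*M)
      (a := M) (b := 3*M) (c := -(3*M)) (d := 4*M) (by omega) (by omega) le_rfl le_rfl (by omega)
      le_rfl (hw3.mono (Set.inter_subset_inter_left _ Set.subset_union_left))
      (by unfold inR at hu; omega) hcase.ge hV3 le_rfl le_rfl
    refine lift (S := S) (I := I) (w0 := (vx, vy)) ?_ ?_ (m.mono Set.inter_subset_left) ?_ ?_
    · rintro e he
      by_contra hcon
      have hcon' : src e ∈ I ∨ tgt e ∈ I := by tauto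
      have hD : e ∈ Dm a b := by
        refine hJ2 e he ?_
        obtain ⟨x0, y0, bo⟩ := e
        intro hmem
        cases bo
        · simp only [mem_RE_false] at hmem
          simp only [src_mk, tgt_false, hI, Set.mem_ofPred_eq] at hcon'
          omega
        · simp only [mem_RE_true] at hmem
          simp only [src_mk, tgt_true, hI, Set.mem_ofPred_eq] at hcon'
          omega
      unfold Dm DV ht col at hD
      simp only [hI, Set.mem_ofPred_eq] at hcon' hD
      rcases hcon' with ⟨h1, h2⟩ | ⟨h1, h2⟩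
      · have := hD.1.1 (by omega); omega
      · have := hD.2.1 (by omega); omega
    · rintro ⟨x0, y0, bo⟩ ⟨h1, h2, h3, h4⟩
      simp only at h1 h2 h3 h4
      subst h2
      simp only [src_mk, tgt_false, hI, Set.mem_ofPred_eq, Prod.mk.injEq]
      omega
    · simp only [hI, Set.mem_ofPred_eq]
      unfold inR at hu
      omega
    · simp only [hI, Set.mem_ofPred_eq]
      omega
  · -- the horizontal path extended
    set S : Set Edg := {e | e.2.1 = wy ∧ e.2.2 = true ∧ -(4*M) ≤ e.1 ∧ e.1 < wx} with hS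
    set I : Set Vtx := {z | z.2 = wy ∧ z.1 < wx} with hI
    have hseg1 : Reach (S ∩ ↑(RE (-(4*M)) (3*M) (-(3*M)) (-M))) (-(4*M), wy) (wx, wy) := by
      have := hseg (S := S ∩ ↑(RE (-(4*M)) (3*M) (-(3*M)) (-M))) (x0 := -(4*M)) (y := wy)
        (wx + 4*M).toNat (by
          intro y1 h1 h2
          refine ⟨⟨rfl, rfl, h1, by show y1 < wx; omega⟩, ?_⟩
          simp only [mem_coe, mem_RE_true]; omega)
      rwa [show -(4*M) + ((wx + 4*M).toNat : ℤ) = wx by omega] at this
    have hW3 : Reach ((J ∪ S) ∩ ↑(RE (-(4*M)) (3*M) (-(3*M)) (-M))) (-(4*M), wy) (3*M, q) :=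
      (hseg1.mono (Set.inter_subset_inter_left _ Set.subset_union_right)).trans
        (hW2.symm.mono (Set.inter_subset_inter_left _ Set.subset_union_left))
    have m := cross_meet (F := J ∪ S) (A := -(4*M)) (B := 3*M) (C := -(3*M)) (D := 4*M)
      (a := -(4*M)) (b := 3*M) (c := -(3*M)) (d := -M) le_rfl (by omega) le_rfl le_rfl (by omega)
      (by omega) hW3 le_rfl le_rfl
      (hw3.symm.mono (Set.inter_subset_inter_left _ Set.subset_union_left)) hcase.le
      (by unfold inR at hu; omega)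
    have m2 : Reach (J ∪ S) u (3*M, q) :=
      ((huw.mono Set.subset_union_left).trans (m.mono Set.inter_subset_left).symm).trans
        (hW3.mono Set.inter_subset_left)
    refine Reach.trans ?_ hmeet
    refine lift (S := S) (I := I) (w0 := (wx, wy)) ?_ ?_ m2 ?_ ?_
    · rintro e he
      by_contra hcon
      have hcon' : src e ∈ I ∨ tgt e ∈ I := by tauto
      have hD : e ∈ Dm a b := by
        refine hJ2 e he ?_
        obtain ⟨x0, y0, bo⟩ := e
        intro hmem
        cases bo
        · simp only [mem_RE_false] at hmem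
          simp only [src_mk, tgt_false, hI, Set.mem_ofPred_eq] at hcon'
          omega
        · simp only [mem_RE_true] at hmem
          simp only [src_mk, tgt_true, hI, Set.mem_ofPred_eq] at hcon'
          omega
      unfold Dm DV ht col at hD
      simp only [hI, Set.mem_ofPred_eq] at hcon' hD
      rcases hcon' with ⟨h1, h2⟩ | ⟨h1, h2⟩
      · have := hD.1.2 (by omega); omega
      · have := hD.2.2 (by omega); omega
    · rintro ⟨x0, y0, bo⟩ ⟨h1, h2, h3, h4⟩
      simp only at h1 h2 h3 h4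
      subst h2
      simp only [src_mk, tgt_true, hI, Set.mem_ofPred_eq, Prod.mk.injEq]
      omega
    · simp only [hI, Set.mem_ofPred_eq]
      unfold inR at hu
      omega
    · simp only [hI, Set.mem_ofPred_eq]
      omega

theorem t_UNI : UniStm := by
  intro m a b hm ha hb F G hG hBar
  obtain ⟨⟨x, x', hx, hx', hV⟩, ⟨y, q, hy, hq, hW⟩⟩ := hBar
  have hm' : (0:ℤ) < m := by exact_mod_cast hm
  have e1 : boxE (4*m) = RE (-(4*(m:ℤ))) (4*m) (-(4*(m:ℤ))) (4*m) := by
    unfold boxE; push_cast; rfl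
  have e2 : boxE (m-1) = RE (-((m:ℤ)-1)) (m-1) (-((m:ℤ)-1)) (m-1) := by
    unfold boxE; rw [Nat.cast_sub hm]; push_cast; rfl
  refine ⟨(x, -(3*(m:ℤ))), ?_⟩
  intro u v hu hv huv
  refine core (M := m) (a := a) (b := b) (F := ↑F) hm' ha hb ?_ ?_ hx hx' hV hy hq hW
    (v := v) ?_ ?_ huv
  · rintro e ⟨⟨-, he⟩, he'⟩ hout
    rw [← e2] at hout
    exact (hG e he' hout).mp he
  · intro e he h1 h2 h3
    rw [← e1] at h1
    rw [← e2] at h2
    exact ⟨⟨he, (hG e h1 h2).mpr h3⟩, h1⟩
  · unfold inB at hu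
    rw [Nat.cast_sub hm] at hu
    push_cast at hu
    exact hu
  · have := hv.2
    push_cast at this
    exact this

end Pool.Agent.U692.SA
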